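import Pool.Agent.H4ES.Final

/-!
Einstein metrics on the coned subdivision of a 3-dimensional complex with constant edge degree.
-/

namespace Pool.Agent.Results.MP_7080a7_gt.ConedComplexes

open Pool.Agent.H4ES

/-- Let `K` be a finite pure 3-dimensional complex. The metric `z = 1` on `K` is an Einstein metric
if and only if all edges lie in the same number of 3-simplices; and then the proper subdivision
`K.cone` of `K` has an Einstein metric too, equal to `1` on the old edges and to some `t` in
`(1/3, 3/5)` on the new edges. -/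
theorem result {V ι : Type} [DecidableEq V] [Fintype ι] [DecidableEq ι] (K : Cplx V ι) :
    (K.IsEinstein (fun _ => 1) ↔ ∀ e ∈ K.edges, ∀ e' ∈ K.edges, K.deg e = K.deg e') ∧
    (K.IsEinstein (fun _ => 1) →
      ∃ (t : ℝ) (z : Sym2 (V ⊕ ι) → ℝ), 1 / 3 < t ∧ t < 3 / 5 ∧
        (∀ x y : V, z s(Sum.inl x, Sum.inl y) = 1) ∧
        (∀ (T : ι) (x : V), z s(Sum.inr T, Sum.inl x) = t) ∧ K.cone.IsEinstein z) := by
  refine ⟨K.einstein_one_iff, fun hK => ?_⟩
  obtain ⟨t, ht, ht1, h⟩ := K.cone_of_one hK
  exact ⟨t, Cplx.zc t, ht, ht1, fun x y => Cplx.zc_old t x y,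
    fun T x => Cplx.zc_new t T _, h⟩

end Pool.Agent.Results.MP_7080a7_gt.ConedComplexes
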