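import Pool.Agent.H50En.Iff
import Pool.Agent.H50En.Ex1
import Pool.Agent.H50En.Ex2

/-!
Einstein metrics on coned subdivisions of simplicial complexes of dimension `n ≥ 4`.
-/

namespace Pool.Agent.Results.MP_7080a7_gt.HigherDimensions

open Finset Pool.Agent.H50En

/-- Let `n ≥ 4` and let `K` be a finite pure complex of dimension `n` (given by its `n`-simplices,
sets of `n + 1` vertices) in which every simplex of dimension `n - 2` lies in at least three
simplices of dimension `n`. The metric `z = 1` is an Einstein metric on `K` if and only if all edges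
lie in the same number of simplices of dimension `n - 2` and in the same number of simplices of
dimension `n`. And then for some `t` with `(n - 1) / (2 n) < t < 1 / 2` the proper subdivision
`cone K` of `K` has an Einstein metric which is `1` on the old edges and `t` on the new edges. The
boundaries of the `(n+1)`-simplex and of the `(n+1)`-dimensional cross-polytope are such. -/
theorem result {n : ℕ} (hn : 4 ≤ n) :
    (∀ (V : Type) [DecidableEq V] (K : Finset (Finset V)), Pure n K →
      (∀ σ ∈ faces K (n - 1), 3 ≤ #(K.filter (σ ⊆ ·))) →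
      (IsEinstein n K (fun _ => 1) ↔ EdgeRegular n K) ∧
      (IsEinstein n K (fun _ => 1) →
        ∃ (t : ℝ) (z : Sym2 (V ⊕ Finset V) → ℝ), (n - 1 : ℝ) / (2 * n) < t ∧ t < 1 / 2 ∧
          (∀ x y : V, z s(Sum.inl x, Sum.inl y) = 1) ∧
          (∀ (T : Finset V) (x : V), z s(Sum.inr T, Sum.inl x) = t) ∧
          IsEinstein n (cone K) z)) ∧
    EdgeRegular n (simplexBd n) ∧ EdgeRegular n (crossBd n) := by
  refine ⟨?_, Ex1.edgeRegular_simplexBd hn, Ex2.edgeRegular_crossBd hn⟩
  intro V _ K hK h3
  refine ⟨einstein_iff hn hK h3, fun hE => ?_⟩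
  obtain ⟨-, ⟨s, hs⟩, ⟨d, hd⟩, -⟩ := (einstein_iff hn hK h3).1 hE
  exact (main hn hK (fun _ _ _ he => hs _ he) (fun _ _ _ he => hd _ he) h3).2

end Pool.Agent.Results.MP_7080a7_gt.HigherDimensions
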