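import Pool.Agent.H88ES.FinalJ

/-!
Joins of two cycles and their subdivisions have Einstein metrics.
-/

namespace Pool.Agent.Results.MP_7080a7_gt.JoinCycles

open Pool.Agent.H4ES Pool.Agent.H88ES.Cycle

/-- Let `K` be the join of two finite graphs whose components are cycles of length at least three,
for example of two cycles. Then `K` has an Einstein metric, and for all `n`, `k` it has a
subdivision which is a join of two such graphs with `n` and `k` more vertices, and which has an
Einstein metric. -/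
theorem result {C D : Type} [Fintype C] [DecidableEq C] [Nonempty C] [Fintype D] [DecidableEq D]
    [Nonempty D] (σ : Equiv.Perm C) (τ : Equiv.Perm D) (hσ : Cyc σ) (hτ : Cyc τ) :
    (∃ z, (join σ τ hσ hτ).IsEinstein z) ∧
    ∀ n k : ℕ, ∃ (C' D' : Type) (_ : Fintype C') (_ : DecidableEq C') (_ : Fintype D')
      (_ : DecidableEq D') (σ' : Equiv.Perm C') (τ' : Equiv.Perm D') (hσ' : Cyc σ')
      (hτ' : Cyc τ') (f : C' ⊕ D' → C ⊕ D → ℝ),
      Fintype.card C' = Fintype.card C + n ∧ Fintype.card D' = Fintype.card D + k ∧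
      IsSubdivision (join σ τ hσ hτ) (join σ' τ' hσ' hτ') f ∧
      ∃ z, (join σ' τ' hσ' hτ').IsEinstein z := by
  refine ⟨einstein_join σ τ hσ hτ, fun n k => ?_⟩
  obtain ⟨C', i1, i2, i3, σ', hσ', M, hc, hM⟩ := exists_fine σ hσ n
  obtain ⟨D', j1, j2, j3, τ', hτ', N, hd, hN⟩ := exists_fine τ hτ k
  exact ⟨C', D', i1, i2, j1, j2, σ', τ', hσ', hτ', pos M N, hc, hd,
    join_sub hM hN hσ hτ hσ' hτ', einstein_join σ' τ' hσ' hτ'⟩

end Pool.Agent.Results.MP_7080a7_gt.JoinCycles
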