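import Pool.Agent.H18En.R5

/-!
Metrics with `Ein(z) = 0` on complexes of dimension `n ≥ 3`: the subdivision by the barycentres of
the `n`-simplices, with the induced metric, is again Einstein.
-/

set_option autoImplicit false

namespace Pool.Agent.Results.MP_7080a7_gt.RicciFlat

open Finset Pool.Agent.H50En Pool.Agent.H18R4

/-- `Ein(z) = 0`: all partial derivatives of the total scalar curvature vanish at `z`. -/
def ZeroEin {V : Type} [DecidableEq V] (n : ℕ) (K : Finset (Finset V)) (z : Sym2 V → ℝ) : Prop :=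
  ∀ x y : V, x ≠ y → {x, y} ∈ faces K 2 →
    HasDerivAt (fun u => totalCurv n K (Function.update z s(x, y) u)) 0 (z s(x, y))

/-- `a` is the partial derivative of the total scalar curvature in the variable `z s(x, y)`. -/
def Partial {V : Type} [DecidableEq V] (n : ℕ) (K : Finset (Finset V)) (z : Sym2 V → ℝ) (x y : V)
    (a : ℝ) : Prop :=
  HasDerivAt (fun u => totalCurv n K (Function.update z s(x, y) u)) a (z s(x, y))

/-- Let `n ≥ 3`, `K` a finite pure `n`-dimensional complex with a metric `z`, and `z'` the induced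
metric on the subdivision `cone K` in which every `n`-simplex is coned from its barycentre. The
curvatures of the old `(n-2)`-simplices and the partial derivatives in the old edges do not change,
those of the new ones are `0`, and `z'` is an Einstein metric if and only if `Ein(z) = 0`; in this
case `Ein(z') = 0`. -/
theorem result (n : ℕ) (hn : 3 ≤ n) {V : Type} [DecidableEq V] (K : Finset (Finset V))
    (hK : Pure n K) (z : Sym2 V → ℝ) (hz : IsMetric n K z) :
    ∃ z' : Sym2 (V ⊕ Finset V) → ℝ,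
      (∀ x y : V, z' s(Sum.inl x, Sum.inl y) = z s(x, y)) ∧
      (∀ T ∈ K, ∀ p : T → EuclideanSpace ℝ (Fin n),
        (∀ a b : T, a ≠ b → dist (p a) (p b) ^ 2 = z s(a.1, b.1)) →
        ∀ x : T, z' s(Sum.inr T, Sum.inl x.1) = dist (((n : ℝ) + 1)⁻¹ • ∑ i, p i) (p x) ^ 2) ∧
      IsMetric n (cone K) z' ∧
      (∀ σ : Finset V, #σ = n - 1 →
        curv (cone K) z' (σ.map ⟨Sum.inl, Sum.inl_injective⟩) = curv K z σ) ∧
      (∀ T ∈ K, ∀ ρ ⊆ T, #ρ = n - 2 →
        curv (cone K) z' (insert (Sum.inr T) (ρ.map ⟨Sum.inl, Sum.inl_injective⟩)) = 0) ∧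
      (∀ x y : V, x ≠ y → ∃ a, Partial n K z x y a ∧
        Partial n (cone K) z' (Sum.inl x) (Sum.inl y) a) ∧
      (∀ T ∈ K, ∀ x ∈ T, Partial n (cone K) z' (Sum.inr T) (Sum.inl x) 0) ∧
      (IsEinstein n (cone K) z' ↔ ZeroEin n K z) ∧
      (ZeroEin n (cone K) z' ↔ ZeroEin n K z) := by
  obtain ⟨h1, h2, h3, h4, h5, h6, -⟩ := main hn hK hz
  obtain ⟨f1, f2⟩ := flat hn hK hz
  refine ⟨ind n z, fun x y => ind_old z x y, ?_, h1, h2, h3,
    fun x y hxy => ⟨_, h4 x y hxy, h5 x y hxy⟩, h6, f1, f2.symm.trans f1⟩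
  intro T hT p hp x
  rw [ind_new]
  have h := leib_eq (hK T hT) (z := z)
    (p := fun v => if hv : v ∈ T then p ⟨v, hv⟩ else 0) ?_ x.2
  · rw [h]
    have e1 : bar T (fun v => if hv : v ∈ T then p ⟨v, hv⟩ else 0) =
        ((n : ℝ) + 1)⁻¹ • ∑ i, p i := by
      unfold bar
      congr 1
      rw [← Finset.sum_coe_sort]
      exact sum_congr rfl fun i _ => dif_pos i.2
    rw [e1, dif_pos x.2]
  · intro a ha b hb hab
    rw [dif_pos ha, dif_pos hb, hp ⟨a, ha⟩ ⟨b, hb⟩ (fun e => hab (congrArg Subtype.val e))]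

end Pool.Agent.Results.MP_7080a7_gt.RicciFlat
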